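import Pool.Agent.U73.GP.Gaps

/-!
# Gaps of the size of the mean gap
-/

set_option autoImplicit false

open Complex Filter Topology Set MeasureTheory
open scoped BigOperators ComplexConjugate

namespace Pool.Agent.U73.GP

open H370 H344 H295SI H295Iso Pool.Agent.Y796.PA Pool.Agent.U73.WS

/-- the indices `n` with `T₁ < γ_n ≤ T₂` and `d ≤ γ_{n+1} - γ_n ≤ D` -/
def normal (T₁ T₂ d D : ℝ) : Set ℕ :=
  {n : ℕ | 1 ≤ n ∧ T₁ < NG.gam n ∧ NG.gam n ≤ T₂ ∧ d ≤ NG.gam (n + 1) - NG.gam n ∧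
    NG.gam (n + 1) - NG.gam n ≤ D}

lemma normal_sub (T₁ T₂ d D : ℝ) : normal T₁ T₂ d D ⊆ wide T₁ T₂ d :=
  fun _ h => ⟨h.1, h.2.1, h.2.2.1, h.2.2.2.1⟩

lemma normal_finite (T₁ T₂ d D : ℝ) : (normal T₁ T₂ d D).Finite :=
  (wide_finite T₁ T₂ d).subset (normal_sub T₁ T₂ d D)

/-- few gaps are large -/
theorem normal_count {T₁ T₂ d D : ℝ} (hT : T₁ ≤ T₂) (hd : 0 ≤ d) (hD : d ≤ D) :
    D * ((wide T₁ T₂ d).ncard - 1) - (T₂ - T₁) ≤ (D - d) * ((normal T₁ T₂ d D).ncard : ℝ) := by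
  classical
  set W := (wide_finite T₁ T₂ d).toFinset with hW
  have hWc : (wide T₁ T₂ d).ncard = W.card := Set.ncard_eq_toFinset_card _ (wide_finite T₁ T₂ d)
  have hmW : ∀ n, n ∈ W ↔ n ∈ wide T₁ T₂ d := fun n => Set.Finite.mem_toFinset _
  have hD0 : 0 ≤ D := hd.trans hD
  rcases W.eq_empty_or_nonempty with h0 | hne
  · rw [hWc, h0]
    have : 0 ≤ (D - d) * ((normal T₁ T₂ d D).ncard : ℝ) :=
      mul_nonneg (by linarith) (by positivity)
    simp
    linarith
  set a := W.min' hne with ha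
  set b := W.max' hne with hb
  set W' := W.erase b with hW'
  have haW := (hmW a).mp (Finset.min'_mem W hne)
  have hbW := (hmW b).mp (Finset.max'_mem W hne)
  have hab : a ≤ b := Finset.min'_le W b (Finset.max'_mem W hne)
  have hsub : W' ⊆ Finset.Ico a b := by
    intro n hn
    obtain ⟨h1, h2⟩ := Finset.mem_erase.mp hn
    have h3 := Finset.min'_le W n h2
    have h4 := Finset.le_max' W n h2
    exact Finset.mem_Ico.mpr ⟨h3, lt_of_le_of_ne h4 h1⟩
  have hpos : ∀ n ∈ Finset.Ico a b, 0 ≤ NG.gam (n + 1) - NG.gam n := by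
    intro n hn
    have h1 : 1 ≤ n := haW.1.trans (Finset.mem_Ico.mp hn).1
    linarith [NG.gam_mono h1 (Nat.le_succ n)]
  have hsum : ∑ n ∈ W', (NG.gam (n + 1) - NG.gam n) ≤ T₂ - T₁ := by
    refine (Finset.sum_le_sum_of_subset_of_nonneg hsub fun n hn _ => hpos n hn).trans ?_
    rw [Finset.sum_Ico_sub NG.gam hab]
    linarith [haW.2.1, hbW.2.2.1]
  set Nf := W'.filter (fun n => NG.gam (n + 1) - NG.gam n ≤ D) with hNf
  set Lf := W'.filter (fun n => ¬ NG.gam (n + 1) - NG.gam n ≤ D) with hLf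
  have hc : W'.card = Nf.card + Lf.card := (Finset.card_filter_add_card_filter_not _).symm
  have hlow : d * Nf.card + D * Lf.card ≤ ∑ n ∈ W', (NG.gam (n + 1) - NG.gam n) := by
    rw [← Finset.sum_filter_add_sum_filter_not W' (fun n => NG.gam (n + 1) - NG.gam n ≤ D)]
    have h1 : (Nf.card : ℝ) * d ≤ ∑ n ∈ Nf, (NG.gam (n + 1) - NG.gam n) := by
      rw [← nsmul_eq_mul]
      refine Finset.card_nsmul_le_sum _ _ _ fun n hn => ?_
      have h2 := (Finset.mem_erase.mp (Finset.mem_filter.mp hn).1).2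
      exact ((hmW n).mp h2).2.2.2
    have h2 : (Lf.card : ℝ) * D ≤ ∑ n ∈ Lf, (NG.gam (n + 1) - NG.gam n) := by
      rw [← nsmul_eq_mul]
      refine Finset.card_nsmul_le_sum _ _ _ fun n hn => ?_
      have h3 := (Finset.mem_filter.mp hn).2
      push Not at h3
      exact h3.le
    linarith
  have hNn : (Nf.card : ℝ) ≤ (normal T₁ T₂ d D).ncard := by
    have h1 : (Nf : Set ℕ) ⊆ normal T₁ T₂ d D := by
      intro n hn
      obtain ⟨h2, h3⟩ := Finset.mem_filter.mp (Finset.mem_coe.mp hn)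
      have h4 := (hmW n).mp (Finset.mem_erase.mp h2).2
      exact ⟨h4.1, h4.2.1, h4.2.2.1, h4.2.2.2, h3⟩
    have h2 := Set.ncard_le_ncard h1 (normal_finite T₁ T₂ d D)
    rw [Set.ncard_coe_finset] at h2
    exact_mod_cast h2
  have hW'c : (W'.card : ℝ) = W.card - 1 := by
    rw [hW', Finset.card_erase_of_mem (Finset.max'_mem W hne)]
    have : 1 ≤ W.card := hne.card_pos
    push_cast [Nat.cast_sub this]
    ring
  have hc' : (W'.card : ℝ) = Nf.card + Lf.card := by exact_mod_cast hc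
  rw [hWc, ← hW'c, hc']
  have h5 : (D - d) * (Nf.card : ℝ) ≤ (D - d) * ((normal T₁ T₂ d D).ncard : ℝ) :=
    mul_le_mul_of_nonneg_left hNn (by linarith)
  nlinarith

/-- the numerical step -/
lemma normal_num {W N Nn M P r R e ε s H : ℝ} (hs : 0 < s) (hrR : r < R) (hr : 0 ≤ r)
    (hN0 : 0 ≤ N) (hcount : R * s * (W - 1) - H ≤ (R * s - r * s) * Nn) (hH : H = M * s)
    (hW : (P - e) * N ≤ W) (hM : M ≤ (1 + e) * N) (hone : 1 ≤ e * N)
    (hε : e * (2 * R + 1) ≤ ε * (R - r)) :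
    ((R * P - 1) / (R - r) - ε) * N ≤ Nn := by
  have hRr : 0 < R - r := by linarith
  have hR0 : 0 < R := by linarith
  have h1 : R * (W - 1) - M ≤ (R - r) * Nn := by
    have h2 : s * (R * (W - 1) - M) ≤ s * ((R - r) * Nn) := by
      have e1 : s * (R * (W - 1) - M) = R * s * (W - 1) - M * s := by ring
      have e2 : s * ((R - r) * Nn) = (R * s - r * s) * Nn := by ring
      rw [e1, e2, ← hH]
      exact hcount
    exact le_of_mul_le_mul_left h2 hs
  have h3 : (R * P - 1) * N - ε * (R - r) * N ≤ (R - r) * Nn := by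
    have h4 : R * ((P - e) * N) ≤ R * W := mul_le_mul_of_nonneg_left hW hR0.le
    have h5 : R * 1 ≤ R * (e * N) := mul_le_mul_of_nonneg_left hone hR0.le
    have h6 : e * (2 * R + 1) * N ≤ ε * (R - r) * N := mul_le_mul_of_nonneg_right hε hN0
    nlinarith
  have h7 : (R - r) * (((R * P - 1) / (R - r) - ε) * N) ≤ (R - r) * Nn := by
    refine le_trans (le_of_eq ?_) h3
    field_simp
  exact le_of_mul_le_mul_left h7 hRr

/-- the number of zeros in the short intervals -/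
theorem count_short {h e : ℝ} (hh : 0 < h) (hh1 : h ≤ 1) (he : 0 < e) :
    ∃ T0 : ℝ, 10 ≤ T0 ∧ ∀ T : ℝ, T0 ≤ T → ∀ H : ℝ, T ^ h ≤ H → H ≤ T →
      H * Real.log T / (2 * Real.pi) ≤ (1 + e) * (NN riemannZeta T (T + H) : ℝ) ∧
        1 ≤ e * (NN riemannZeta T (T + H) : ℝ) := by
  have hpi := Real.pi_pos
  obtain ⟨δ, hδ, hδ1, hδ2⟩ : ∃ δ : ℝ, 0 < δ ∧ δ ≤ 1 / 2 ∧ δ ≤ e / 4 :=
    ⟨min (1 / 2) (e / 4), by positivity, min_le_left _ _, min_le_right _ _⟩
  obtain ⟨δ, hδ, hδ1, hδ2⟩ : ∃ δ : ℝ, 0 < δ ∧ δ ≤ 1 / 2 ∧ 1 ≤ (1 + e) * (1 - δ) := by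
    refine ⟨min (1 / 2) (e / (1 + e)), by positivity, min_le_left _ _, ?_⟩
    have h1 : min (1 / 2) (e / (1 + e)) ≤ e / (1 + e) := min_le_right _ _
    rw [le_div_iff₀ (by positivity)] at h1
    nlinarith
  obtain ⟨T1, hT1, h1⟩ := frame_short good_zeta hh hh1 (r := 0) le_rfl (by rw [mul_zero]; norm_num)
    hδ (by linarith)
  have htop : Tendsto (fun T : ℝ => T ^ h) atTop atTop := tendsto_rpow_atTop hh
  obtain ⟨T2, hT2⟩ := (htop.eventually_ge_atTop (4 * Real.pi / e)).exists_forall_of_atTop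
  refine ⟨max T1 T2, hT1.trans (le_max_left _ _), fun T hT H hH hHT => ?_⟩
  obtain ⟨U1, U2, hU1, hU2, ⟨Λ, f1, -, -, -⟩, -⟩ := h1 T ((le_max_left _ _).trans hT) H hH hHT
  have hTT := hT2 T ((le_max_right _ _).trans hT)
  have hT10 : 10 ≤ T := hT1.trans ((le_max_left _ _).trans hT)
  have hL1 : 1 ≤ Real.log T := by
    rw [Real.le_log_iff_exp_le (by linarith)]
    have := Real.exp_one_lt_d9
    linarith
  have hHb : 4 * Real.pi / e ≤ H := hTT.trans hH
  have hH0 : 0 < H := lt_of_lt_of_le (by positivity) hHb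
  have hM0 : 0 < H * Real.log T / (2 * Real.pi) := by positivity
  have hmono : (NN riemannZeta U1 U2 : ℝ) ≤ NN riemannZeta T (T + H) := by
    exact_mod_cast NN_mono good_zeta (by linarith) hU1 hU2
  have hMe : 2 ≤ e * (H * Real.log T / (2 * Real.pi)) := by
    rw [div_le_iff₀ he] at hHb
    have h3 : H * 1 ≤ H * Real.log T := mul_le_mul_of_nonneg_left hL1 hH0.le
    rw [← mul_div_assoc, le_div_iff₀ (by positivity)]
    nlinarith
  set M : ℝ := H * Real.log T / (2 * Real.pi) with hM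
  constructor
  · have h2 : (1 + e) * ((1 - δ) * M) ≤ (1 + e) * (NN riemannZeta T (T + H) : ℝ) :=
      mul_le_mul_of_nonneg_left (f1.trans hmono) (by linarith)
    nlinarith
  · have h2 : (1 / 2) * M ≤ (NN riemannZeta T (T + H) : ℝ) := by nlinarith
    have h3 := mul_le_mul_of_nonneg_left h2 he.le
    linarith

/-- gaps of the size of the mean gap in all short intervals -/
theorem normal_short {h r R ε : ℝ} {k : ℕ} (hk : 1 ≤ k) (hh : 0 < h) (hh1 : h ≤ 1) (hr0 : 0 ≤ r)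
    (hrR : r < R) (hr : h * (k * r) ≤ 1 / 2) (hε : 0 < ε) :
    ∃ T0 : ℝ, 10 ≤ T0 ∧ ∀ T : ℝ, T0 ≤ T → ∀ H : ℝ, T ^ h ≤ H → H ≤ T →
      ((R * (1 - mu (h * (k * r)) k * (c0 h - 1)) - 1) / (R - r) - ε) *
        (NN riemannZeta T (T + H) : ℝ) ≤
        ((normal T (T + H) (2 * Real.pi * r / Real.log T)
          (2 * Real.pi * R / Real.log T)).ncard : ℝ) := by
  have hpi := Real.pi_pos
  have hRr : 0 < R - r := by linarith
  have hR0 : 0 < R := by linarith
  obtain ⟨e, he, hee⟩ : ∃ e : ℝ, 0 < e ∧ e * (2 * R + 1) ≤ ε * (R - r) := by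
    refine ⟨ε * (R - r) / (2 * R + 1), by positivity, ?_⟩
    exact le_of_eq (by field_simp)
  obtain ⟨T1, hT1, h1⟩ := gp_short hk hh hh1 hr0 hr he
  obtain ⟨T2, hT2, h2⟩ := count_short hh hh1 he
  refine ⟨max T1 T2, hT1.trans (le_max_left _ _), fun T hT H hH hHT => ?_⟩
  have h3 := h1 T ((le_max_left _ _).trans hT) H hH hHT
  obtain ⟨h4, h5⟩ := h2 T ((le_max_right _ _).trans hT) H hH hHT
  have hT10 : 10 ≤ T := hT1.trans ((le_max_left _ _).trans hT)
  have hL : 0 < Real.log T := Real.log_pos (by linarith)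
  have hH0 : 0 < H := lt_of_lt_of_le (Real.rpow_pos_of_pos (by linarith) h) hH
  have hs : 0 < 2 * Real.pi / Real.log T := by positivity
  have e1 : 2 * Real.pi * r / Real.log T = r * (2 * Real.pi / Real.log T) := by ring
  have e2 : 2 * Real.pi * R / Real.log T = R * (2 * Real.pi / Real.log T) := by ring
  rw [e1] at h3
  rw [e1, e2]
  have h6 := normal_count (T₁ := T) (T₂ := T + H) (d := r * (2 * Real.pi / Real.log T))
    (D := R * (2 * Real.pi / Real.log T)) (by linarith) (by positivity)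
    (mul_le_mul_of_nonneg_right hrR.le hs.le)
  rw [add_sub_cancel_left] at h6
  exact normal_num hs hrR hr0 (by positivity) h6 (M := H * Real.log T / (2 * Real.pi))
    (by field_simp) h3 h4 h5 hee

/-- gaps of the size of the mean gap in almost all very short intervals -/
theorem normal_aa (hB : ∀ τ : ℝ, 0 < τ → τ ≤ 1 → Pool.Agent.TH822.DZ.BZr riemannZeta τ)
    {η h r R ε : ℝ} {k : ℕ} (hk : 1 ≤ k) (hη0 : 0 < η) (hη1 : η < 1) (hh : 0 < h)
    (hh1 : 2 * h ≤ 1 + η) (hr0 : 0 ≤ r) (hrR : r < R) (hr : h * (k * r) ≤ 1 / 2) (hε : 0 < ε) :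
    AA η (fun T H t =>
      ((R * (1 - mu (h * (k * r)) k * (c0 h - 1)) - 1) / (R - r) - ε) *
        (NN riemannZeta t (t + H) : ℝ) ≤
        ((normal t (t + H) (2 * Real.pi * r / Real.log T)
          (2 * Real.pi * R / Real.log T)).ncard : ℝ)) := by
  have hpi := Real.pi_pos
  have hRr : 0 < R - r := by linarith
  have hR0 : 0 < R := by linarith
  obtain ⟨e, he, hee⟩ : ∃ e : ℝ, 0 < e ∧ e * (2 * R + 1) ≤ ε * (R - r) := by
    refine ⟨ε * (R - r) / (2 * R + 1), by positivity, ?_⟩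
    exact le_of_eq (by field_simp)
  obtain ⟨δ', hδ', hδ'1, hδ'ε⟩ := delta_exists (h * (k * r)) k (c0 h) e he
  obtain ⟨δ, hδ, hδ1, hδ2⟩ : ∃ δ : ℝ, 0 < δ ∧ δ ≤ δ' ∧ 1 ≤ (1 + e) * (1 - δ) := by
    refine ⟨min δ' (e / (1 + e)), by positivity, min_le_left _ _, ?_⟩
    have h1 : min δ' (e / (1 + e)) ≤ e / (1 + e) := min_le_right _ _
    rw [le_div_iff₀ (by positivity)] at h1
    nlinarith
  have hδε : δ * (4 + 10 * mu (h * (k * r)) k + 2 * mu (h * (k * r)) k * |c0 h - 1|) ≤ e := by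
    have hμ := mu_pos (h * (k * r)) k
    exact (mul_le_mul_of_nonneg_right hδ1 (by positivity)).trans hδ'ε
  have htop : Tendsto (fun T : ℝ => T ^ η) atTop atTop := tendsto_rpow_atTop hη0
  obtain ⟨T2, hT2⟩ := (htop.eventually_ge_atTop
    (max (2 * Real.pi / δ) (4 * Real.pi / e))).exists_forall_of_atTop
  refine aa_mono (T1 := max 10 T2) (frame_aa good_zeta hB hη0 hη1 hh hh1 (r := k * r)
    (by positivity) hr hδ (by linarith)) ?_
  intro T hT t ht H hH hfr
  have hTT := hT2 T ((le_max_right _ _).trans hT)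
  have hT10 : 10 ≤ T := (le_max_left _ _).trans hT
  have hL1 : 1 ≤ Real.log T := by
    rw [Real.le_log_iff_exp_le (by linarith)]
    have := Real.exp_one_lt_d9
    linarith
  have hL : 0 < Real.log T := by linarith
  have hHb : 2 * Real.pi / δ ≤ H := ((le_max_left _ _).trans hTT).trans hH
  have hHb2 : 4 * Real.pi / e ≤ H := ((le_max_right _ _).trans hTT).trans hH
  have hH0 : 0 < H := lt_of_lt_of_le (by positivity) hHb
  have h3 : H * 1 ≤ H * Real.log T := mul_le_mul_of_nonneg_left hL1 hH0.le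
  have hone : 1 ≤ δ * (H * Real.log T / (2 * Real.pi)) := by
    rw [div_le_iff₀ hδ] at hHb
    rw [← mul_div_assoc, le_div_iff₀ (by positivity)]
    nlinarith
  have hMe : 2 ≤ e * (H * Real.log T / (2 * Real.pi)) := by
    rw [div_le_iff₀ he] at hHb2
    rw [← mul_div_assoc, le_div_iff₀ (by positivity)]
    nlinarith
  have hM0 : 0 < H * Real.log T / (2 * Real.pi) := by positivity
  have h4 := gp_frame hk hh hr0 hr hδ (by linarith) hδε hT10 ht hH0 hone hfr le_rfl le_rfl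
    (by linarith)
  obtain ⟨Λ, f1, -, -, -⟩ := hfr
  have h5 : H * Real.log T / (2 * Real.pi) ≤ (1 + e) * (NN riemannZeta t (t + H) : ℝ) := by
    have h2 := mul_le_mul_of_nonneg_left f1 (show 0 ≤ 1 + e by linarith)
    nlinarith
  have h6 : 1 ≤ e * (NN riemannZeta t (t + H) : ℝ) := by
    have h2 : (1 / 2) * (H * Real.log T / (2 * Real.pi)) ≤ (NN riemannZeta t (t + H) : ℝ) := by
      nlinarith
    have h7 := mul_le_mul_of_nonneg_left h2 he.le
    linarith
  have hs : 0 < 2 * Real.pi / Real.log T := by positivity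
  have e1 : 2 * Real.pi * r / Real.log T = r * (2 * Real.pi / Real.log T) := by ring
  have e2 : 2 * Real.pi * R / Real.log T = R * (2 * Real.pi / Real.log T) := by ring
  rw [e1] at h4
  rw [e1, e2]
  have h7 := normal_count (T₁ := t) (T₂ := t + H) (d := r * (2 * Real.pi / Real.log T))
    (D := R * (2 * Real.pi / Real.log T)) (by linarith) (by positivity)
    (mul_le_mul_of_nonneg_right hrR.le hs.le)
  rw [add_sub_cancel_left] at h7
  exact normal_num hs hrR hr0 (by positivity) h7 (M := H * Real.log T / (2 * Real.pi))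
    (by field_simp) h4 h5 h6 hee

/-- a numerical bound for the kernel -/
lemma KK_num {r w0 w1 v : ℝ} (h0 : 0 ≤ r) (h1 : r ≤ 1 / 2) (hw0 : 0 ≤ w0)
    (hw1 : w1 ≤ 10)
    (ha : w0 ≤ (2 * Real.pi * r) ^ 2) (hb : (2 * Real.pi * r) ^ 2 ≤ w1)
    (hv : v ≤ 1 - w1 / 2 * 0.0775 + w0 ^ 2 / 24 * (1 - w1 / 120) * (1 / 80 - 1 / 448)) :
    v ≤ KK r := by
  refine le_trans ?_ (KK_quart h0 h1)
  have h2 : cMTinv ≤ 1.3275 := Pool.Agent.W354.ZP.cMTinv_sharp
  have h3 := cMTinv_ge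
  set w : ℝ := (2 * Real.pi * r) ^ 2 with hw
  have h7 : (2 * Real.pi * r) ^ 4 = w ^ 2 := by rw [hw]; ring
  rw [h7]
  have h8 : w / 2 * (cMTinv - 5 / 4) ≤ w1 / 2 * 0.0775 := by
    apply mul_le_mul
    · linarith
    · norm_num at h2 ⊢; linarith
    · linarith
    · linarith
  have h9 : w0 ^ 2 ≤ w ^ 2 := pow_le_pow_left₀ hw0 ha 2
  have h10 : w0 ^ 2 / 24 * (1 - w1 / 120) * (1 / 80 - 1 / 448) ≤
      w ^ 2 / 24 * (1 - w / 120) * (1 / 80 - 1 / 448) := by
    apply mul_le_mul_of_nonneg_right _ (by norm_num)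
    apply mul_le_mul
    · linarith
    · linarith
    · linarith
    · positivity
  linarith

end Pool.Agent.U73.GP
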