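import Pool.Agent.U73.GP.Frame

/-!
# Consecutive simple critical zeros at small distance: chains as test matrices
-/

set_option autoImplicit false

open Complex Filter Topology Set MeasureTheory
open scoped BigOperators ComplexConjugate

namespace Pool.Agent.U73.GP

open H370 H344 H295SI H295Iso Pool.Agent.Y796.PA Pool.Agent.U73.WS

/-- `y` follows `x` in `S` at distance at most `ρ` -/
def Adj (S : Finset ℝ) (ρ x y : ℝ) : Prop := x < y ∧ y ≤ x + ρ ∧ ∀ z ∈ S, ¬ (x < z ∧ z < y)

/-- the elements of `S` which are followed by another one at distance at most `ρ` -/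
noncomputable def cls (S : Finset ℝ) (ρ : ℝ) : Finset ℝ := by
  classical
  exact S.filter (fun x => ∃ y ∈ S, x < y ∧ y ≤ x + ρ)

lemma mem_cls {S : Finset ℝ} {ρ x : ℝ} :
    x ∈ cls S ρ ↔ x ∈ S ∧ ∃ y ∈ S, x < y ∧ y ≤ x + ρ := by
  classical
  unfold cls
  rw [Finset.mem_filter]

/-- the test matrix of a chain -/
theorem chain {Λ κ ρ : ℝ} (h0 : 0 ≤ κ) (h1 : κ ≤ 1)
    (hκ : ∀ x y : ℝ, |x - y| ≤ ρ → κ ≤ (phi Λ ((x : ℂ) - y)).re) (S : Finset ℝ) :
    ∃ Y : ℝ → ℝ → ℝ, (∀ v : ℝ → ℂ, ∑ x ∈ S, ∑ y ∈ S, Y x y * (conj (v x) * v y).re ≤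
      ∑ x ∈ S, ‖v x‖ ^ 2) ∧ 3 / 2 * κ ^ 2 * ((cls S ρ).card : ℝ) ≤ YT Λ S Y := by
  classical
  set a : ℝ → ℝ → ℝ := fun x y => if Adj S ρ x y then 1 else 0 with ha
  have ha0 : ∀ x y, 0 ≤ a x y := fun x y => by
    simp only [ha]; split_ifs <;> norm_num
  have hex : ∀ x y, Adj S ρ x y → ¬ Adj S ρ y x := fun x y h h' => by
    have := h.1
    have := h'.1
    linarith
  have hsq : ∀ x y, (a x y + a y x) ^ 2 = a x y + a y x := by
    intro x y
    simp only [ha]
    by_cases h : Adj S ρ x y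
    · rw [if_pos h, if_neg (hex x y h)]; norm_num
    · rw [if_neg h]
      split_ifs <;> norm_num
  have hrow : ∀ x ∈ S, ∑ y ∈ S, a x y ≤ 1 := by
    intro x _
    simp only [ha]
    rw [Finset.sum_boole]
    have : (S.filter (fun y => Adj S ρ x y)).card ≤ 1 := by
      rw [Finset.card_le_one]
      intro y hy z hz
      rw [Finset.mem_filter] at hy hz
      rcases lt_trichotomy y z with h | h | h
      · exact absurd ⟨hy.2.1, h⟩ (hz.2.2.2 y hy.1)
      · exact h
      · exact absurd ⟨hz.2.1, h⟩ (hy.2.2.2 z hz.1)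
    exact_mod_cast this
  have hcol : ∀ x ∈ S, ∑ y ∈ S, a y x ≤ 1 := by
    intro x _
    simp only [ha]
    rw [Finset.sum_boole]
    have : (S.filter (fun y => Adj S ρ y x)).card ≤ 1 := by
      rw [Finset.card_le_one]
      intro y hy z hz
      rw [Finset.mem_filter] at hy hz
      rcases lt_trichotomy y z with h | h | h
      · exact absurd ⟨h, hz.2.1⟩ (hy.2.2.2 z hz.1)
      · exact h
      · exact absurd ⟨h, hy.2.1⟩ (hz.2.2.2 y hy.1)
    exact_mod_cast this
  refine ⟨fun x y => κ / 2 * (a x y + a y x), fun v => ?_, ?_⟩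
  · have e1 : ∀ x ∈ S, ∀ y ∈ S, κ / 2 * (a x y + a y x) * (conj (v x) * v y).re ≤
        κ / 2 * (a x y + a y x) * ((‖v x‖ ^ 2 + ‖v y‖ ^ 2) / 2) := by
      intro x _ y _
      apply mul_le_mul_of_nonneg_left _ (mul_nonneg (by linarith) (add_nonneg (ha0 _ _) (ha0 _ _)))
      have h2 : (conj (v x) * v y).re ≤ ‖conj (v x) * v y‖ := Complex.re_le_norm _
      rw [norm_mul, RCLike.norm_conj] at h2
      nlinarith [sq_nonneg (‖v x‖ - ‖v y‖)]
    refine (Finset.sum_le_sum fun x hx => Finset.sum_le_sum fun y hy => e1 x hx y hy).trans ?_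
    have e2 : ∑ x ∈ S, ∑ y ∈ S, κ / 2 * (a x y + a y x) * ((‖v x‖ ^ 2 + ‖v y‖ ^ 2) / 2) =
        ∑ x ∈ S, κ / 2 * ‖v x‖ ^ 2 * (∑ y ∈ S, a x y + ∑ y ∈ S, a y x) := by
      have e3 : ∑ x ∈ S, ∑ y ∈ S, κ / 2 * (a x y + a y x) * ((‖v x‖ ^ 2 + ‖v y‖ ^ 2) / 2) =
          ∑ x ∈ S, ∑ y ∈ S, κ / 2 * (a x y + a y x) * (‖v x‖ ^ 2 / 2) +
          ∑ x ∈ S, ∑ y ∈ S, κ / 2 * (a x y + a y x) * (‖v y‖ ^ 2 / 2) := by
        rw [← Finset.sum_add_distrib]
        refine Finset.sum_congr rfl fun x _ => ?_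
        rw [← Finset.sum_add_distrib]
        exact Finset.sum_congr rfl fun y _ => by ring
      have e4 : ∑ x ∈ S, ∑ y ∈ S, κ / 2 * (a x y + a y x) * (‖v y‖ ^ 2 / 2) =
          ∑ x ∈ S, ∑ y ∈ S, κ / 2 * (a x y + a y x) * (‖v x‖ ^ 2 / 2) := by
        rw [Finset.sum_comm]
        refine Finset.sum_congr rfl fun x _ => Finset.sum_congr rfl fun y _ => by ring
      rw [e3, e4, ← Finset.sum_add_distrib]
      refine Finset.sum_congr rfl fun x _ => ?_
      rw [← Finset.sum_add_distrib, ← Finset.sum_add_distrib, Finset.mul_sum]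
      exact Finset.sum_congr rfl fun y _ => by ring
    rw [e2]
    refine Finset.sum_le_sum fun x hx => ?_
    have h3 := hrow x hx
    have h4 := hcol x hx
    have h5 : κ / 2 * ‖v x‖ ^ 2 * (∑ y ∈ S, a x y + ∑ y ∈ S, a y x) ≤
        κ / 2 * ‖v x‖ ^ 2 * 2 := mul_le_mul_of_nonneg_left (by linarith) (by positivity)
    nlinarith [sq_nonneg ‖v x‖]
  · unfold YT
    rw [Finset.mul_sum, ← Finset.sum_sub_distrib]
    have e1 : ∀ x ∈ S, ∑ y ∈ S, 3 / 4 * κ ^ 2 * (a x y + a y x) ≤
        2 * ∑ y ∈ S, κ / 2 * (a x y + a y x) * ((phi Λ ((x : ℂ) - y)).re - if x = y then 1 else 0) -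
          ∑ y ∈ S, (κ / 2 * (a x y + a y x)) ^ 2 := by
      intro x _
      rw [Finset.mul_sum, ← Finset.sum_sub_distrib]
      refine Finset.sum_le_sum fun y _ => ?_
      rw [mul_pow, hsq]
      by_cases hA : Adj S ρ x y ∨ Adj S ρ y x
      · have hne : x ≠ y := by
          rintro rfl
          rcases hA with h | h
          · exact lt_irrefl _ h.1
          · exact lt_irrefl _ h.1
        have hab : |x - y| ≤ ρ := by
          rw [abs_le]
          rcases hA with h | h
          · constructor <;> linarith [h.1, h.2.1]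
          · constructor <;> linarith [h.1, h.2.1]
        rw [if_neg hne, sub_zero]
        have hk := hκ x y hab
        have hp : 0 ≤ a x y + a y x := add_nonneg (ha0 _ _) (ha0 _ _)
        nlinarith [mul_nonneg (mul_nonneg h0 hp) (sub_nonneg.mpr hk)]
      · push Not at hA
        have e0 : a x y + a y x = 0 := by
          simp only [ha]
          rw [if_neg hA.1, if_neg hA.2]; norm_num
        rw [e0]
        simp
    refine le_trans ?_ (Finset.sum_le_sum e1)
    have e2 : ∑ x ∈ S, ∑ y ∈ S, 3 / 4 * κ ^ 2 * (a x y + a y x) =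
        3 / 2 * κ ^ 2 * ∑ x ∈ S, ∑ y ∈ S, a x y := by
      have e3 : ∑ x ∈ S, ∑ y ∈ S, a y x = ∑ x ∈ S, ∑ y ∈ S, a x y := Finset.sum_comm
      have e4 : ∑ x ∈ S, ∑ y ∈ S, 3 / 4 * κ ^ 2 * (a x y + a y x) =
          3 / 4 * κ ^ 2 * (∑ x ∈ S, ∑ y ∈ S, a x y + ∑ x ∈ S, ∑ y ∈ S, a y x) := by
        rw [← Finset.sum_add_distrib, Finset.mul_sum]
        refine Finset.sum_congr rfl fun x _ => ?_
        rw [← Finset.sum_add_distrib, Finset.mul_sum]
      rw [e4, e3]
      ring
    rw [e2]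
    apply mul_le_mul_of_nonneg_left _ (by positivity)
    have e5 : ((cls S ρ).card : ℝ) = ∑ x ∈ cls S ρ, (1 : ℝ) := by simp
    rw [e5]
    have hsub : cls S ρ ⊆ S := fun x hx => (mem_cls.mp hx).1
    refine le_trans (Finset.sum_le_sum fun x hx => ?_)
      (Finset.sum_le_sum_of_subset_of_nonneg hsub fun x _ _ =>
        Finset.sum_nonneg fun y _ => ha0 x y)
    obtain ⟨hxS, y, hyS, hxy, hyρ⟩ := mem_cls.mp hx
    set W := S.filter (fun z => x < z) with hW
    have hyW : y ∈ W := Finset.mem_filter.mpr ⟨hyS, hxy⟩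
    have hne : W.Nonempty := ⟨y, hyW⟩
    set z := W.min' hne with hz
    have hzW : z ∈ W := Finset.min'_mem W hne
    have hz2 := Finset.mem_filter.mp hzW
    have hzy : z ≤ y := Finset.min'_le W y hyW
    have hAdj : Adj S ρ x z := by
      refine ⟨hz2.2, by linarith, fun w hw h => ?_⟩
      have := Finset.min'_le W w (Finset.mem_filter.mpr ⟨hw, h.1⟩)
      linarith [h.2]
    have h6 : a x z = 1 := by simp only [ha]; rw [if_pos hAdj]
    rw [← h6]
    exact Finset.single_le_sum (fun w _ => ha0 x w) hz2.1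

variable {F : ℂ → ℂ}

/-- **the trace inequality for chains** -/
theorem gp_core (hF : GoodL F) {U1 U2 Λ ρ κ : ℝ} (hU : 1 ≤ U1) (h0 : 0 ≤ κ) (h1 : κ ≤ 1)
    (hκ : ∀ x y : ℝ, |x - y| ≤ ρ → κ ≤ (phi Λ ((x : ℂ) - y)).re) :
    2 * (NN F U1 U2 : ℝ) - (SF F U1 U2).card + 3 / 2 * κ ^ 2 * ((cls (SF F U1 U2) ρ).card : ℝ) ≤
      QQ F Λ U1 U2 := by
  obtain ⟨Y, hY, hYT⟩ := chain h0 h1 hκ (SF F U1 U2)
  have core := core_ineq (U2 := U2) hF hU Λ 0 0 0 le_rfl le_rfl le_rfl
    (fun x y _ => sq_nonneg _) (fun x w _ _ _ => by rw [zero_mul]; positivity) Y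
    (by rw [SI_zero]; exact hY)
  rw [SI_zero, zero_mul, add_zero] at core
  have hNs : (Ns F U1 U2 : ℝ) = ((SF F U1 U2).card : ℝ) := by rw [Ns_card hF hU]
  rw [hNs] at core
  linarith

/-! ## the number of large gaps -/

/-- the elements of `O` without a follower at distance at most `d` -/
noncomputable def farF (O : Finset ℝ) (d : ℝ) : Finset ℝ := by
  classical
  exact O.filter (fun t => ∀ y ∈ O, ¬ (t < y ∧ y ≤ t + d))

lemma mem_farF {O : Finset ℝ} {d t : ℝ} :
    t ∈ farF O d ↔ t ∈ O ∧ ∀ y ∈ O, ¬ (t < y ∧ y ≤ t + d) := by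
  classical
  unfold farF
  rw [Finset.mem_filter]

/-- pigeonhole: a window with less than `k` points contains a gap larger than its `k`-th part -/
lemma far_exists (O : Finset ℝ) {x ρ : ℝ} {k : ℕ} (hk : 1 ≤ k) (hρ : 0 ≤ ρ) (hx : x ∈ O)
    (hc : (O.filter (fun y => x < y ∧ y ≤ x + ρ)).card < k) :
    ∃ t ∈ farF O (ρ / k), x ≤ t ∧ t ≤ x + ρ := by
  classical
  have hk0 : (0 : ℝ) < k := by exact_mod_cast hk
  set d : ℝ := ρ / k with hd
  have hd0 : 0 ≤ d := by positivity
  have hkd : (k : ℝ) * d = ρ := by rw [hd]; field_simp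
  by_cases hall : ∀ i ∈ Finset.range k, ∃ y ∈ O, x + i * d < y ∧ y ≤ x + (i + 1) * d
  · exfalso
    choose! f hf using hall
    have hinj : Set.InjOn f (Finset.range k : Set ℕ) := by
      intro i hi j hj hij
      have h1 := (hf i hi).2
      have h2 := (hf j hj).2
      rw [hij] at h1
      by_contra hne
      rcases lt_or_gt_of_ne hne with h | h
      · have h3 : (i : ℝ) + 1 ≤ j := by exact_mod_cast h
        nlinarith [mul_le_mul_of_nonneg_right h3 hd0]
      · have h3 : (j : ℝ) + 1 ≤ i := by exact_mod_cast h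
        nlinarith [mul_le_mul_of_nonneg_right h3 hd0]
    have h4 : (Finset.range k).image f ⊆ O.filter (fun y => x < y ∧ y ≤ x + ρ) := by
      intro y hy
      obtain ⟨i, hi, rfl⟩ := Finset.mem_image.mp hy
      have h1 := hf i hi
      have hik : (i : ℝ) + 1 ≤ k := by exact_mod_cast Finset.mem_range.mp hi
      refine Finset.mem_filter.mpr ⟨h1.1, ?_, ?_⟩
      · have : 0 ≤ (i : ℝ) * d := by positivity
        linarith [h1.2.1]
      · have := mul_le_mul_of_nonneg_right hik hd0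
        linarith [h1.2.2]
    have h5 := Finset.card_le_card h4
    rw [Finset.card_image_of_injOn hinj, Finset.card_range] at h5
    omega
  · push Not at hall
    obtain ⟨i, hi, hno⟩ := hall
    have hik : (i : ℝ) + 1 ≤ k := by exact_mod_cast Finset.mem_range.mp hi
    set W := O.filter (fun y => y ≤ x + i * d) with hW
    have hid : 0 ≤ (i : ℝ) * d := by positivity
    have hxW : x ∈ W := Finset.mem_filter.mpr ⟨hx, by linarith⟩
    have hne : W.Nonempty := ⟨x, hxW⟩
    set t := W.max' hne with ht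
    have htW := Finset.mem_filter.mp (Finset.max'_mem W hne)
    have hxt : x ≤ t := Finset.le_max' W x hxW
    have h6 := mul_le_mul_of_nonneg_right hik hd0
    refine ⟨t, mem_farF.mpr ⟨htW.1, fun y hy h => ?_⟩, hxt, ?_⟩
    · rcases le_or_gt y (x + i * d) with h7 | h7
      · have := Finset.le_max' W y (Finset.mem_filter.mpr ⟨hy, h7⟩)
        linarith [h.1]
      · have h8 := hno y hy h7
        have h9 : t ≤ x + i * d := htW.2
        linarith [h.2]
    · have h9 : t ≤ x + i * d := htW.2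
      linarith

/-- **the number of the large gaps** -/
theorem far_count (S O : Finset ℝ) (hS : S ⊆ O) {k : ℕ} (hk : 1 ≤ k) {ρ : ℝ} (hρ : 0 ≤ ρ) :
    (S.card : ℝ) - (cls S ρ).card - ((O.card : ℝ) - S.card) / k ≤ (farF O (ρ / k)).card := by
  classical
  have hk0 : (0 : ℝ) < k := by exact_mod_cast hk
  set w : ℝ → Finset ℝ := fun x => O.filter (fun y => x < y ∧ y ≤ x + ρ) with hw
  set G := S \ cls S ρ with hG
  have hmG : ∀ x ∈ G, x ∈ S ∧ ∀ y ∈ S, ¬ (x < y ∧ y ≤ x + ρ) := by
    intro x hx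
    obtain ⟨h1, h2⟩ := Finset.mem_sdiff.mp hx
    exact ⟨h1, fun y hy h => h2 (mem_cls.mpr ⟨h1, y, hy, h.1, h.2⟩)⟩
  have hsep : ∀ x ∈ G, ∀ x' ∈ G, x < x' → x + ρ < x' := by
    intro x hx x' hx' h
    by_contra hcon
    push Not at hcon
    exact (hmG x hx).2 x' (hmG x' hx').1 ⟨h, hcon⟩
  set G1 := G.filter (fun x => (w x).card < k) with hG1
  set G2 := G.filter (fun x => ¬ (w x).card < k) with hG2
  have hcG : G.card = G1.card + G2.card := (Finset.card_filter_add_card_filter_not _).symm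
  have hcls : cls S ρ ⊆ S := fun x hx => (mem_cls.mp hx).1
  have hcS : (S.card : ℝ) = (cls S ρ).card + G.card := by
    have := Finset.card_sdiff_add_card_eq_card hcls
    rw [← hG] at this
    rw [← this]
    push_cast
    ring
  -- the windows with many points
  have h2 : (k : ℝ) * G2.card ≤ (O.card : ℝ) - S.card := by
    have hdisj : ∀ x ∈ G2, ∀ y ∈ G2, x ≠ y → Disjoint (w x) (w y) := by
      intro x hx y hy hxy
      have hx' := (Finset.mem_filter.mp hx).1
      have hy' := (Finset.mem_filter.mp hy).1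
      rw [Finset.disjoint_left]
      intro z hz hz'
      have hz1 := (Finset.mem_filter.mp hz).2
      have hz2 := (Finset.mem_filter.mp hz').2
      rcases lt_or_gt_of_ne hxy with h | h
      · linarith [hsep x hx' y hy' h, hz1.2, hz2.1]
      · linarith [hsep y hy' x hx' h, hz2.2, hz1.1]
    have h3 : (G2.biUnion w).card = ∑ x ∈ G2, (w x).card := Finset.card_biUnion hdisj
    have h4 : G2.biUnion w ⊆ O \ S := by
      intro z hz
      obtain ⟨x, hx, hzx⟩ := Finset.mem_biUnion.mp hz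
      have hx' := (Finset.mem_filter.mp hx).1
      have hz1 := Finset.mem_filter.mp hzx
      exact Finset.mem_sdiff.mpr ⟨hz1.1, fun hzS => (hmG x hx').2 z hzS hz1.2⟩
    have h5 := Finset.card_le_card h4
    rw [h3] at h5
    have h6 : G2.card * k ≤ ∑ x ∈ G2, (w x).card := by
      rw [← smul_eq_mul]
      exact Finset.card_nsmul_le_sum _ _ _ fun x hx => by
        have := (Finset.mem_filter.mp hx).2
        omega
    have h7 := Finset.card_sdiff_add_card_eq_card hS
    have h8 : (G2.card : ℝ) * k ≤ (O \ S).card := by exact_mod_cast h6.trans h5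
    have h9 : (((O \ S).card : ℕ) : ℝ) + S.card = O.card := by exact_mod_cast h7
    linarith
  -- the windows with few points
  have h1 : G1.card ≤ (farF O (ρ / k)).card := by
    have hex : ∀ x ∈ G1, ∃ t ∈ farF O (ρ / k), x ≤ t ∧ t ≤ x + ρ := by
      intro x hx
      obtain ⟨hxG, hxc⟩ := Finset.mem_filter.mp hx
      exact far_exists O hk hρ (hS (hmG x hxG).1) hxc
    choose! f hf using hex
    refine Finset.card_le_card_of_injOn f (fun x hx => (hf x hx).1) ?_
    intro x hx y hy hxy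
    have hx' := (Finset.mem_filter.mp hx).1
    have hy' := (Finset.mem_filter.mp hy).1
    have a1 := (hf x hx).2
    have a2 := (hf y hy).2
    by_contra hne
    rcases lt_or_gt_of_ne hne with h | h
    · linarith [hsep x hx' y hy' h, a1.2, a2.1]
    · linarith [hsep y hy' x hx' h, a2.2, a1.1]
  have h1' : (G1.card : ℝ) ≤ (farF O (ρ / k)).card := by exact_mod_cast h1
  have hcG' : (G.card : ℝ) = G1.card + G2.card := by exact_mod_cast hcG
  have h3 : (G2.card : ℝ) ≤ ((O.card : ℝ) - S.card) / k := by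
    rw [le_div_iff₀ hk0]
    linarith
  linarith

end Pool.Agent.U73.GP
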