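import Pool.Agent.U73.WD.Fin

/-!
# A frame for theorems from the trace inequality in short intervals
-/

set_option autoImplicit false

open Complex Filter Topology Set MeasureTheory
open scoped BigOperators ComplexConjugate

namespace Pool.Agent.U73.GP

open H370 H344 H295SI H295Iso Pool.Agent.Y796.PA Pool.Agent.U73.WS

variable {F : ℂ → ℂ}

/-- what is known about the zeros with ordinates in `(U1, U2]` -/
def Frame (F : ℂ → ℂ) (h r δ T H U1 U2 : ℝ) : Prop :=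
  ∃ Λ : ℝ, (1 - δ) * (H * Real.log T / (2 * Real.pi)) ≤ (NN F U1 U2 : ℝ) ∧
    (NN F U1 U2 : ℝ) ≤ (1 + δ) * (H * Real.log T / (2 * Real.pi)) ∧
    QQ F Λ U1 U2 ≤ (H * Real.log T / (2 * Real.pi)) * (c0 h + δ) ∧
    ∀ x y : ℝ, |x - y| ≤ 2 * Real.pi * r / Real.log T →
        (1 - δ) * KK (h * r) ≤ (phi Λ ((x : ℂ) - y)).re

/-- the frame in all short intervals -/
theorem frame_short (hF : GoodL F) {h r δ : ℝ} (hh : 0 < h) (hh1 : h ≤ 1)
    (hr0 : 0 ≤ r) (hr : h * r ≤ 1 / 2) (hδ : 0 < δ) (hδ1 : δ ≤ 1) :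
    ∃ T0 : ℝ, 10 ≤ T0 ∧ ∀ T : ℝ, T0 ≤ T → ∀ H : ℝ, T ^ h ≤ H → H ≤ T →
      ∃ U1 U2 : ℝ, T ≤ U1 ∧ U2 ≤ T + H ∧ Frame F h r δ T H U1 U2 ∧
        (NN F T (T + H) : ℝ) ≤ NN F U1 U2 + δ * (H * Real.log T / (2 * Real.pi)) := by
  classical
  have hpi := Real.pi_pos
  have hpi2 : Real.pi < 3.15 := Real.pi_lt_d2
  have hhr0 : 0 ≤ h * r := by positivity
  have hKa : (0.655 : ℝ) ≤ KK (h * r) := KK_half.trans (KK_anti hhr0 hr le_rfl)
  have hKp : 0 ≤ KK (h * r) := by norm_num at hKa ⊢; linarith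
  obtain ⟨ε', hε'0, hε'h, hcc⟩ : ∃ ε' : ℝ, 0 < ε' ∧ ε' < h ∧ c0 (h - ε') ≤ c0 h + δ / 2 := by
    have hcont := c0_cont hh
    have h1 : ∀ᶠ x in 𝓝 h, c0 x < c0 h + δ / 2 := hcont.eventually (gt_mem_nhds (by linarith))
    rw [Metric.eventually_nhds_iff] at h1
    obtain ⟨d, hd0, hd⟩ := h1
    refine ⟨min (d / 2) (h / 2), by positivity, lt_of_le_of_lt (min_le_right _ _) (by linarith), ?_⟩
    refine (hd ?_).le
    rw [Real.dist_eq, abs_sub_comm, show h - (h - min (d / 2) (h / 2)) = min (d / 2) (h / 2) by ring,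
      abs_of_pos (by positivity)]
    exact lt_of_le_of_lt (min_le_left _ _) (by linarith)
  have hη0 : 0 < δ / 14 := by positivity
  obtain ⟨T1, hT1, hPC⟩ := pairShort hF h ε' (δ / 14) hε'0 hε'h hh1 hη0
  obtain ⟨C, hC, hcnt⟩ := H965SI.countShort F hF
  obtain ⟨T3, hT3, hKB⟩ := Pool.Agent.U73.WD.kernel_first (r := h * r) (e1 := δ) hKp hr hδ hδ1
  have htop : Tendsto (fun T : ℝ => T ^ h) atTop atTop := tendsto_rpow_atTop hh
  have hlogtop := Real.tendsto_log_atTop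
  obtain ⟨T4, hT4⟩ := (htop.eventually_ge_atTop
    (max (max T3 5) (2 * Real.pi * C / (δ / 14)))).exists_forall_of_atTop
  obtain ⟨T5, hT5⟩ := (hlogtop.eventually_ge_atTop (10 : ℝ)).exists_forall_of_atTop
  refine ⟨max (max T1 10) (max T4 T5), (le_max_right _ _).trans (le_max_left _ _),
    fun T hT H hH hHT => ?_⟩
  have hTT1 : T1 ≤ T := ((le_max_left _ _).trans (le_max_left _ _)).trans hT
  have hT10 : 10 ≤ T := ((le_max_right _ _).trans (le_max_left _ _)).trans hT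
  have hTT4 := hT4 T (((le_max_left _ _).trans (le_max_right _ _)).trans hT)
  have hL10 := hT5 T (((le_max_right _ _).trans (le_max_right _ _)).trans hT)
  have hTh3 : T3 ≤ T ^ h := ((le_max_left _ _).trans (le_max_left _ _)).trans hTT4
  have hTh5 : 5 ≤ T ^ h := ((le_max_right _ _).trans (le_max_left _ _)).trans hTT4
  have hThC : 2 * Real.pi * C / (δ / 14) ≤ T ^ h := (le_max_right _ _).trans hTT4
  have hL : 0 < Real.log T := by linarith
  have hH5 : 5 ≤ H := hTh5.trans hH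
  obtain ⟨U1, U2, hU1, hU1', hU2, hU2', hNN, hQQ⟩ := hPC T hTT1 H hH hHT
  set M : ℝ := H * Real.log T / (2 * Real.pi) with hM
  have hM0 : 0 < M := by positivity
  have hHL : H * Real.log T = 2 * Real.pi * M := by rw [hM]; field_simp
  rw [hHL] at hNN
  have hηM : δ / 14 * (2 * Real.pi * M) ≤ δ / 2 * M := by
    have : 2 * Real.pi ≤ 7 := by linarith
    calc δ / 14 * (2 * Real.pi * M) = (δ / 14 * M) * (2 * Real.pi) := by ring
      _ ≤ (δ / 14 * M) * 7 := by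
        apply mul_le_mul_of_nonneg_left this (by positivity)
      _ = δ / 2 * M := by ring
  obtain ⟨hNNl, hNNu⟩ := abs_le.mp hNN
  have hcnt2 := (hcnt T hT10 H (by linarith) hHT U1 U2 hU1 hU1' hU2 hU2').2
  have hlogTh : Real.log (T ^ h) = h * Real.log T := Real.log_rpow (by linarith) h
  have hΛ0 : 0 ≤ (h - ε') * Real.log T := mul_nonneg (by linarith) hL.le
  have hΛ1 : (h - ε') * Real.log T ≤ Real.log (T ^ h) := by
    rw [hlogTh]
    exact mul_le_mul_of_nonneg_right (by linarith) hL.le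
  have hk1 := hKB (T ^ h) hTh3 ((h - ε') * Real.log T) hΛ0 hΛ1
  have hρe : 2 * Real.pi * (h * r) / Real.log (T ^ h) = 2 * Real.pi * r / Real.log T := by
    rw [hlogTh]; field_simp
  rw [hρe] at hk1
  have hCL : C * Real.log T ≤ δ / 14 * M := by
    rw [div_le_iff₀ hη0] at hThC
    have h1 : 2 * Real.pi * C ≤ H * (δ / 14) := hThC.trans (mul_le_mul_of_nonneg_right hH hη0.le)
    have : δ / 14 * M = (H * (δ / 14)) * (Real.log T / (2 * Real.pi)) := by rw [hM]; ring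
    rw [this]
    calc C * Real.log T = (2 * Real.pi * C) * (Real.log T / (2 * Real.pi)) := by
          field_simp
      _ ≤ (H * (δ / 14)) * (Real.log T / (2 * Real.pi)) :=
        mul_le_mul_of_nonneg_right h1 (by positivity)
  have hCl1 : 0 ≤ C * Real.log T := by positivity
  have hδM : 0 < δ * M := by positivity
  refine ⟨U1, U2, hU1, hU2', ⟨(h - ε') * Real.log T, by linarith, by linarith,
    hQQ.trans (mul_le_mul_of_nonneg_left (by linarith) hM0.le), hk1⟩, by linarith⟩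

/-- the frame in the good intervals -/
theorem frame_det {h r δ : ℝ} (hh : 0 < h)
    (hr0 : 0 ≤ r) (hr : h * r ≤ 1 / 2) (hδ : 0 < δ) (hδ1 : δ ≤ 1) :
    ∃ x0 : ℝ, 0 < x0 ∧ x0 < h ∧ ∃ e0 : ℝ, 0 < e0 ∧ ∃ T0 : ℝ, 10 ≤ T0 ∧ ∀ T : ℝ, T0 ≤ T →
      ∀ t : ℝ, T ≤ t → ∀ H : ℝ, 0 < H → GoodInt F T H x0 e0 t →
        Frame F h r δ T H t (t + H) := by
  classical
  have hpi := Real.pi_pos
  have hhr0 : 0 ≤ h * r := by positivity
  have hKa : (0.655 : ℝ) ≤ KK (h * r) := KK_half.trans (KK_anti hhr0 hr le_rfl)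
  have hKp : 0 ≤ KK (h * r) := by norm_num at hKa ⊢; linarith
  obtain ⟨ε', hε'0, hε'h, hcc⟩ : ∃ ε' : ℝ, 0 < ε' ∧ ε' < h ∧ c0 (h - ε') ≤ c0 h + δ / 2 := by
    have hcont := c0_cont hh
    have h1 : ∀ᶠ x in 𝓝 h, c0 x < c0 h + δ / 2 := hcont.eventually (gt_mem_nhds (by linarith))
    rw [Metric.eventually_nhds_iff] at h1
    obtain ⟨d, hd0, hd⟩ := h1
    refine ⟨min (d / 2) (h / 2), by positivity, lt_of_le_of_lt (min_le_right _ _) (by linarith), ?_⟩
    refine (hd ?_).le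
    rw [Real.dist_eq, abs_sub_comm, show h - (h - min (d / 2) (h / 2)) = min (d / 2) (h / 2) by ring,
      abs_of_pos (by positivity)]
    exact lt_of_le_of_lt (min_le_left _ _) (by linarith)
  obtain ⟨T3, hT3, hKB⟩ := Pool.Agent.U73.WD.kernel_first (r := h * r) (e1 := δ) hKp hr hδ hδ1
  have htop : Tendsto (fun T : ℝ => T ^ h) atTop atTop := tendsto_rpow_atTop hh
  obtain ⟨T4, hT4⟩ := (htop.eventually_ge_atTop T3).exists_forall_of_atTop
  refine ⟨h - ε', by linarith, by linarith, δ / 2, by positivity, max 10 T4, le_max_left _ _,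
    fun T hT t ht H hH hgood => ?_⟩
  have hT10 : 10 ≤ T := (le_max_left _ _).trans hT
  have hTh3 := hT4 T ((le_max_right _ _).trans hT)
  have hL : 0 < Real.log T := Real.log_pos (by linarith)
  obtain ⟨hNN, hQQ⟩ := hgood
  set M : ℝ := H * Real.log T / (2 * Real.pi) with hM
  have hM0 : 0 < M := by positivity
  obtain ⟨hNNl, hNNu⟩ := abs_le.mp hNN
  have hlogTh : Real.log (T ^ h) = h * Real.log T := Real.log_rpow (by linarith) h
  have hΛ0 : 0 ≤ (h - ε') * Real.log T := mul_nonneg (by linarith) hL.le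
  have hΛ1 : (h - ε') * Real.log T ≤ Real.log (T ^ h) := by
    rw [hlogTh]
    exact mul_le_mul_of_nonneg_right (by linarith) hL.le
  have hk1 := hKB (T ^ h) hTh3 ((h - ε') * Real.log T) hΛ0 hΛ1
  have hρe : 2 * Real.pi * (h * r) / Real.log (T ^ h) = 2 * Real.pi * r / Real.log T := by
    rw [hlogTh]; field_simp
  rw [hρe] at hk1
  have hδM : 0 < δ * M := by positivity
  exact ⟨(h - ε') * Real.log T, by linarith, by linarith,
    hQQ.trans (mul_le_mul_of_nonneg_left (by linarith) hM0.le), hk1⟩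

/-- the frame in almost all very short intervals -/
theorem frame_aa (hF : GoodL F) (hB : ∀ τ : ℝ, 0 < τ → τ ≤ 1 → Pool.Agent.TH822.DZ.BZr F τ)
    {η h r δ : ℝ} (hη0 : 0 < η) (hη1 : η < 1) (hh : 0 < h) (hh1 : 2 * h ≤ 1 + η)
    (hr0 : 0 ≤ r) (hr : h * r ≤ 1 / 2) (hδ : 0 < δ) (hδ1 : δ ≤ 1) :
    AA η (fun T H t => Frame F h r δ T H t (t + H)) := by
  obtain ⟨x0, hx0, hxh, e0, he0, T0, -, h1⟩ := frame_det (F := F) hh hr0 hr hδ hδ1
  exact aa_of_det hF hB hη0 hη1 hh1 hx0 hxh he0 fun T hT t ht H hH hg =>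
    h1 T hT t ht H (by linarith) hg

end Pool.Agent.U73.GP
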