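import Pool.Agent.U73.GP.Chain
import Pool.Agent.U73.NG.Zeta

/-!
# Large gaps between consecutive ordinates of the zeros of zeta
-/

set_option autoImplicit false

open Complex Filter Topology Set MeasureTheory
open scoped BigOperators ComplexConjugate

namespace Pool.Agent.U73.GP

open H370 H344 H295SI H295Iso Pool.Agent.Y796.PA Pool.Agent.U73.WS

/-- the indices `n` with `T₁ < γ_n ≤ T₂` and `γ_{n+1} - γ_n ≥ d` -/
def wide (T₁ T₂ d : ℝ) : Set ℕ :=
  {n : ℕ | 1 ≤ n ∧ T₁ < NG.gam n ∧ NG.gam n ≤ T₂ ∧ d ≤ NG.gam (n + 1) - NG.gam n}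

lemma wide_finite (T₁ T₂ d : ℝ) : (wide T₁ T₂ d).Finite := by
  refine (Set.finite_Iic (NG.N 0 (T₂ + 1))).subset ?_
  rintro n ⟨h1, h2, h3, -⟩
  have hne : {t : ℝ | n ≤ NG.N 0 t}.Nonempty := NG.N_unbdd n
  obtain ⟨t, ht, ht2⟩ := exists_lt_of_csInf_lt hne (show NG.gam n < T₂ + 1 by linarith)
  exact (show n ≤ NG.N 0 t from ht).trans (NG.N_mono ht2.le)

lemma wide_mono {T₁ T₂ U₁ U₂ d : ℝ} (h1 : T₁ ≤ U₁) (h2 : U₂ ≤ T₂) :
    (wide U₁ U₂ d).ncard ≤ (wide T₁ T₂ d).ncard :=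
  Set.ncard_le_ncard (fun _ hn => ⟨hn.1, by linarith [hn.2.1], by linarith [hn.2.2.1], hn.2.2.2⟩)
    (wide_finite _ _ _)

/-- the ordinates of the zeros -/
noncomputable def ords (U1 U2 : ℝ) : Finset ℝ := by
  classical
  exact (Zf riemannZeta U1 U2).image Complex.im

lemma mem_ords {U1 U2 t : ℝ} : t ∈ ords U1 U2 ↔ ∃ s ∈ Zf riemannZeta U1 U2, s.im = t := by
  classical
  unfold ords
  rw [Finset.mem_image]

lemma SF_sub_ords (U1 U2 : ℝ) : SF riemannZeta U1 U2 ⊆ ords U1 U2 := by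
  intro x hx
  exact mem_ords.mpr ⟨_, (mem_SF.mp hx).1, by simp⟩

/-- the zeros with the ordinate `t` -/
lemma two_ords {U1 U2 : ℝ} (hU : 1 ≤ U1) :
    (SF riemannZeta U1 U2).card + 2 * (((ords U1 U2).card : ℝ) - (SF riemannZeta U1 U2).card) ≤
      (NN riemannZeta U1 U2 : ℝ) := by
  classical
  set S := SF riemannZeta U1 U2 with hS
  set O := ords U1 U2 with hO
  have hSO : S ⊆ O := SF_sub_ords U1 U2
  have hF := good_zeta
  have hpos : ∀ s ∈ Zf riemannZeta U1 U2, 1 ≤ mult riemannZeta s := by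
    intro s hs
    have h1 := (mem_Zf hF hU).mp hs
    exact Loc.mult_pos' hF (by linarith [h1.2.2.1]) h1.2.2.2.2
  have h1 : ∑ t ∈ O, ∑ s ∈ (Zf riemannZeta U1 U2).filter (fun s => s.im = t),
      mult riemannZeta s = NN riemannZeta U1 U2 := by
    rw [NN_eq hF hU]
    exact Finset.sum_fiberwise_of_maps_to (fun s hs => mem_ords.mpr ⟨s, hs, rfl⟩) _
  have h2 : ∀ t ∈ O, (if t ∈ S then 1 else 2) ≤
      ∑ s ∈ (Zf riemannZeta U1 U2).filter (fun s => s.im = t), mult riemannZeta s := by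
    intro t ht
    obtain ⟨s, hs, hst⟩ := mem_ords.mp ht
    have hsf : s ∈ (Zf riemannZeta U1 U2).filter (fun s => s.im = t) :=
      Finset.mem_filter.mpr ⟨hs, hst⟩
    have h3 := Finset.single_le_sum (f := fun s => mult riemannZeta s)
      (fun _ _ => Nat.zero_le _) hsf
    have h4 := hpos s hs
    split_ifs with htS
    · exact h4.trans h3
    · by_cases hre : s.re = 1 / 2
      · have hse : s = 1 / 2 + I * (t : ℂ) := by
          apply Complex.ext
          · simp [hre]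
          · simp [hst]
        have h5 : mult riemannZeta s ≠ 1 := by
          intro h
          apply htS
          rw [hS, mem_SF, ← hse]
          exact ⟨hs, h⟩
        have h6 : 2 ≤ mult riemannZeta s := by omega
        exact h6.trans h3
      · set s' : ℂ := 1 - conj s with hs'
        have h5 : s' ∈ Zf riemannZeta U1 U2 := by
          have h6 := zset_refl hF hU ((mem_Zf hF hU).mp hs)
          exact (mem_Zf hF hU).mpr h6
        have h7 : s'.im = t := by rw [hs']; simp [hst]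
        have h8 : s' ≠ s := by
          intro h
          apply hre
          have := congrArg Complex.re h
          rw [hs'] at this
          simp at this
          linarith
        have h9 : ({s, s'} : Finset ℂ) ⊆ (Zf riemannZeta U1 U2).filter (fun s => s.im = t) := by
          intro w hw
          rcases Finset.mem_insert.mp hw with rfl | hw
          · exact hsf
          · rw [Finset.mem_singleton.mp hw]
            exact Finset.mem_filter.mpr ⟨h5, h7⟩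
        have h10 := Finset.sum_le_sum_of_subset (f := fun s => mult riemannZeta s) h9
        rw [Finset.sum_pair h8.symm] at h10
        have h11 := hpos s' h5
        omega
  have h3 := Finset.sum_le_sum h2
  rw [h1, Finset.sum_ite, Finset.sum_const, Finset.sum_const] at h3
  have e1 : O.filter (fun t => t ∈ S) = S := by
    ext t
    rw [Finset.mem_filter]
    exact ⟨fun h => h.2, fun h => ⟨hSO h, h⟩⟩
  have e2 : (O.filter (fun t => t ∉ S)).card + S.card = O.card := by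
    have := Finset.card_filter_add_card_filter_not (s := O) (fun t => t ∈ S)
    rw [e1] at this
    omega
  rw [e1] at h3
  have h4 : (S.card : ℝ) + (O.filter (fun t => t ∉ S)).card * 2 ≤
      (NN riemannZeta U1 U2 : ℝ) := by
    have h5 : S.card + (O.filter (fun t => t ∉ S)).card * 2 ≤ NN riemannZeta U1 U2 := by
      simpa using h3
    exact_mod_cast h5
  have e3 : (((O.filter (fun t => t ∉ S)).card : ℕ) : ℝ) + S.card = O.card := by
    exact_mod_cast e2
  linarith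

/-- from the gaps between ordinates to the indices -/
lemma far_wide {U1 U2 d : ℝ} (hU : 1 ≤ U1) :
    (farF (ords U1 U2) d).card ≤ (wide U1 U2 d).ncard + 1 := by
  classical
  have hF := good_zeta
  set A := (farF (ords U1 U2) d).filter (fun t => t + d ≤ U2) with hA
  set B := (farF (ords U1 U2) d).filter (fun t => ¬ t + d ≤ U2) with hB
  have hsplit : (farF (ords U1 U2) d).card = A.card + B.card :=
    (Finset.card_filter_add_card_filter_not _).symm
  have hord : ∀ t ∈ ords U1 U2, U1 < t ∧ t ≤ U2 ∧ ∃ s ∈ NG.zeros, s.im = t := by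
    intro t ht
    obtain ⟨s, hs, rfl⟩ := mem_ords.mp ht
    have h1 := (mem_Zf hF hU).mp hs
    exact ⟨h1.2.2.1, h1.2.2.2.1, s, ⟨h1.2.2.2.2, h1.1, h1.2.1⟩, rfl⟩
  have hBc : B.card ≤ 1 := by
    rw [Finset.card_le_one]
    intro x hx y hy
    obtain ⟨hx1, hx2⟩ := Finset.mem_filter.mp hx
    obtain ⟨hy1, hy2⟩ := Finset.mem_filter.mp hy
    have hx3 := mem_farF.mp hx1
    have hy3 := mem_farF.mp hy1
    by_contra hne
    rcases lt_or_gt_of_ne hne with h | h
    · have h1 := (hord y hy3.1).2.1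
      exact hx3.2 y hy3.1 ⟨h, by push Not at hx2; linarith⟩
    · have h1 := (hord x hx3.1).2.1
      exact hy3.2 x hx3.1 ⟨h, by push Not at hy2; linarith⟩
  have hAc : A.card ≤ (wide U1 U2 d).ncard := by
    rw [← Set.ncard_coe_finset A]
    refine Set.ncard_le_ncard_of_injOn (fun t => NG.N 0 t) ?_ ?_ (wide_finite _ _ _)
    · intro t ht
      obtain ⟨ht1, ht2⟩ := Finset.mem_filter.mp (Finset.mem_coe.mp ht)
      have ht3 := mem_farF.mp ht1
      obtain ⟨g1, g2, s, hs, rfl⟩ := hord t ht3.1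
      have h0 : 0 < s.im := by linarith
      have h1 := NG.gam_at hs h0
      have h2 : 1 ≤ NG.N 0 s.im := by
        have := NG.N_step hs h0 (t := s.im - 1) (by linarith)
        omega
      have h3 : s.im + d ≤ NG.gam (NG.N 0 s.im + 1) := by
        refine NG.gam_next fun w hw h => ?_
        have hwZ : w ∈ Zf riemannZeta U1 U2 :=
          (mem_Zf hF hU).mpr ⟨hw.2.1, hw.2.2, by linarith [h.1], by linarith [h.2], hw.1⟩
        exact ht3.2 w.im (mem_ords.mpr ⟨w, hwZ, rfl⟩) ⟨h.1, h.2.le⟩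
      exact ⟨h2, by rw [h1]; exact g1, by rw [h1]; exact g2, by rw [h1]; linarith⟩
    · intro x hx y hy hxy
      have hx3 := mem_farF.mp (Finset.mem_filter.mp (Finset.mem_coe.mp hx)).1
      have hy3 := mem_farF.mp (Finset.mem_filter.mp (Finset.mem_coe.mp hy)).1
      obtain ⟨g1, g2, s, hs, rfl⟩ := hord x hx3.1
      obtain ⟨g3, g4, w, hw, rfl⟩ := hord y hy3.1
      have h1 := NG.gam_at hs (by linarith)
      have h2 := NG.gam_at hw (by linarith)
      have hxy' : NG.N 0 s.im = NG.N 0 w.im := hxy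
      rw [← h1, ← h2, hxy']
  omega

/-- the cost of a small gap -/
noncomputable def mu (x : ℝ) (k : ℕ) : ℝ := max (1 + 1 / (2 * k)) (2 / (3 * KK x ^ 2))

/-- the numerical core -/
lemma gp_num {N S J Q M K c μ δ ε NT W κ : ℝ} (hM : 0 < M) (hδ : 0 < δ) (hδ1 : δ ≤ 1 / 10)
    (hN1 : (1 - δ) * M ≤ N) (hN2 : N ≤ (1 + δ) * M) (hQ : Q ≤ M * (c + δ))
    (hκ : κ = (1 - δ) * K)
    (core : 2 * N - S + 3 / 2 * κ ^ 2 * J ≤ Q) (hJ0 : 0 ≤ J) (hJ : J ≤ S) (hS : S ≤ N)
    (hK0 : 0 ≤ K) (hK1 : K ≤ 1) (hμ1 : 1 ≤ μ) (hμ2 : 2 / 3 ≤ μ * K ^ 2)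
    (hNT : NT ≤ N + δ * M) (hNT0 : 0 ≤ NT) (hone : 1 ≤ δ * M) (hW0 : 0 ≤ W)
    (hW : S - J - (μ - 1) * (N - S) - 1 ≤ W)
    (hε : δ * (4 + 10 * μ + 2 * μ * |c - 1|) ≤ ε) :
    (1 - μ * (c - 1) - ε) * NT ≤ W := by
  rcases le_or_gt (1 - μ * (c - 1) - ε) 0 with hP | hP
  · exact (mul_nonpos_of_nonpos_of_nonneg hP hNT0).trans hW0
  have hμ0 : 0 ≤ μ := by linarith
  have hKsq : K ^ 2 ≤ 1 := by nlinarith
  have hKsq0 : 0 ≤ K ^ 2 := sq_nonneg K
  have h1 : 3 / 2 * K ^ 2 * J * (1 - 2 * δ) ≤ 3 / 2 * κ ^ 2 * J := by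
    have : κ ^ 2 = K ^ 2 * (1 - 2 * δ) + K ^ 2 * δ ^ 2 := by rw [hκ]; ring
    rw [this]
    nlinarith [mul_nonneg (mul_nonneg hKsq0 (sq_nonneg δ)) hJ0]
  have h2 : J ≤ μ * (3 / 2 * K ^ 2 * J) := by
    have : (2 / 3) * J ≤ μ * K ^ 2 * J := mul_le_mul_of_nonneg_right hμ2 hJ0
    nlinarith
  have h3 : μ * (3 / 2 * K ^ 2 * J * (2 * δ)) ≤ 4 * μ * δ * M := by
    have hJM : J ≤ 1.1 * M := by
      have : (1 + δ) * M ≤ 1.1 * M := mul_le_mul_of_nonneg_right (by norm_num at hδ1 ⊢; linarith) hM.le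
      linarith
    have h4 : 3 / 2 * K ^ 2 * J ≤ 2 * M := by
      have h5 : K ^ 2 * J ≤ 1 * J := mul_le_mul_of_nonneg_right hKsq hJ0
      nlinarith
    have h6 : μ * (2 * δ) * (3 / 2 * K ^ 2 * J) ≤ μ * (2 * δ) * (2 * M) :=
      mul_le_mul_of_nonneg_left h4 (by positivity)
    calc μ * (3 / 2 * K ^ 2 * J * (2 * δ)) = μ * (2 * δ) * (3 / 2 * K ^ 2 * J) := by ring
      _ ≤ μ * (2 * δ) * (2 * M) := h6
      _ = 4 * μ * δ * M := by ring
  have h4 : μ * (N - S) + J ≤ μ * (Q - N) + 4 * μ * δ * M := by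
    have h5 : μ * ((N - S) + 3 / 2 * K ^ 2 * J * (1 - 2 * δ)) ≤ μ * (Q - N) :=
      mul_le_mul_of_nonneg_left (by linarith) hμ0
    nlinarith
  have h5 : μ * (Q - N) ≤ μ * (M * (c - 1) + 2 * δ * M) := by
    apply mul_le_mul_of_nonneg_left _ hμ0
    nlinarith
  have h6 : M - δ * M - (μ * (M * (c - 1) + 2 * δ * M) + 4 * μ * δ * M) - δ * M ≤ W := by
    nlinarith
  have h7 : NT ≤ (1 + 2 * δ) * M := by nlinarith
  have h8 : (1 - μ * (c - 1) - ε) * NT ≤ (1 - μ * (c - 1) - ε) * ((1 + 2 * δ) * M) :=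
    mul_le_mul_of_nonneg_left h7 hP.le
  refine h8.trans (le_trans ?_ h6)
  have hε0 : 0 ≤ ε := le_trans (by positivity) hε
  have h9 : 1 - μ * (c - 1) - ε ≤ 1 + μ * |c - 1| := by
    have := neg_abs_le (c - 1)
    nlinarith
  have h10 : (1 - μ * (c - 1) - ε) * (2 * δ * M) ≤ (1 + μ * |c - 1|) * (2 * δ * M) :=
    mul_le_mul_of_nonneg_right h9 (by positivity)
  have h11 : δ * (4 + 10 * μ + 2 * μ * |c - 1|) * M ≤ ε * M := mul_le_mul_of_nonneg_right hε hM.le
  have hμδ : 0 ≤ μ * δ * M := by positivity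
  nlinarith

/-- the number of large gaps from the frame -/
theorem gp_frame {h r ε : ℝ} {k : ℕ} (hk : 1 ≤ k) (hh : 0 < h) (hr0 : 0 ≤ r)
    (hr : h * (k * r) ≤ 1 / 2) {δ : ℝ} (hδ : 0 < δ) (hδ1 : δ ≤ 1 / 10)
    (hε : δ * (4 + 10 * mu (h * (k * r)) k + 2 * mu (h * (k * r)) k * |c0 h - 1|) ≤ ε)
    {T H U1 U2 T1 T2 : ℝ} (hT : 10 ≤ T) (hTU : T ≤ U1) (hH : 0 < H)
    (hone : 1 ≤ δ * (H * Real.log T / (2 * Real.pi)))
    (hfr : Frame riemannZeta h (k * r) δ T H U1 U2)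
    (h1 : T1 ≤ U1) (h2 : U2 ≤ T2)
    (hNT : (NN riemannZeta T1 T2 : ℝ) ≤
      NN riemannZeta U1 U2 + δ * (H * Real.log T / (2 * Real.pi))) :
    (1 - mu (h * (k * r)) k * (c0 h - 1) - ε) * (NN riemannZeta T1 T2 : ℝ) ≤
      ((wide T1 T2 (2 * Real.pi * r / Real.log T)).ncard : ℝ) := by
  have hpi := Real.pi_pos
  have hF := good_zeta
  have hk0 : (0 : ℝ) < k := by exact_mod_cast hk
  have hL : 0 < Real.log T := Real.log_pos (by linarith)
  have hM0 : 0 < H * Real.log T / (2 * Real.pi) := by positivity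
  set M : ℝ := H * Real.log T / (2 * Real.pi) with hM
  set μ : ℝ := mu (h * (k * r)) k with hμ
  have hhr0 : 0 ≤ h * (k * r) := by positivity
  have hKa : (0.655 : ℝ) ≤ KK (h * (k * r)) := KK_half.trans (KK_anti hhr0 hr le_rfl)
  have hKb : KK (h * (k * r)) ≤ 1 := KK_le_one _
  have hKp : 0 < KK (h * (k * r)) := by norm_num at hKa ⊢; linarith
  have hU : 1 ≤ U1 := by linarith
  obtain ⟨Λ, f1, f2, f3, f4⟩ := hfr
  have hκ0 : 0 ≤ (1 - δ) * KK (h * (k * r)) := mul_nonneg (by linarith) hKp.le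
  have hκ1 : (1 - δ) * KK (h * (k * r)) ≤ 1 := by nlinarith
  have core := gp_core (U2 := U2) hF hU hκ0 hκ1 f4
  set ρ : ℝ := 2 * Real.pi * (k * r) / Real.log T with hρ
  have hρ0 : 0 ≤ ρ := by positivity
  have hρk : ρ / k = 2 * Real.pi * r / Real.log T := by rw [hρ]; field_simp
  have hfar := far_count (SF riemannZeta U1 U2) (ords U1 U2) (SF_sub_ords U1 U2) hk hρ0
  have hfw := far_wide (U2 := U2) (d := ρ / k) hU
  rw [hρk] at hfar hfw
  have hwm := wide_mono (d := 2 * Real.pi * r / Real.log T) h1 h2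
  have htwo := two_ords (U2 := U2) hU
  have hμ1 : 1 + 1 / (2 * k) ≤ μ := le_max_left _ _
  have hμ2 : 2 / 3 ≤ μ * KK (h * (k * r)) ^ 2 := by
    have h3 : 2 / (3 * KK (h * (k * r)) ^ 2) ≤ μ := le_max_right _ _
    rw [div_le_iff₀ (by positivity)] at h3
    linarith
  have hk2 : 0 < 1 / (2 * (k : ℝ)) := by positivity
  have hSN : ((SF riemannZeta U1 U2).card : ℝ) ≤ NN riemannZeta U1 U2 := by
    have h3 : Ns riemannZeta U1 U2 = (SF riemannZeta U1 U2).card := Ns_card hF hU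
    rw [← h3]
    exact_mod_cast H295Iso.Ns_le_NN hF hU
  have hJS : ((cls (SF riemannZeta U1 U2) ρ).card : ℝ) ≤ (SF riemannZeta U1 U2).card := by
    exact_mod_cast Finset.card_le_card fun x hx => (mem_cls.mp hx).1
  refine gp_num (N := (NN riemannZeta U1 U2 : ℝ)) (S := ((SF riemannZeta U1 U2).card : ℝ))
    (J := ((cls (SF riemannZeta U1 U2) ρ).card : ℝ)) (Q := QQ riemannZeta Λ U1 U2) (M := M)
    (K := KK (h * (k * r))) (c := c0 h) (μ := μ) (δ := δ)
    (κ := (1 - δ) * KK (h * (k * r))) hM0 hδ hδ1 f1 f2 f3 rfl core (by positivity) hJS hSN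
    hKp.le hKb (by linarith) hμ2 hNT (by positivity) hone (by positivity) ?_ hε
  have h3 : (((ords U1 U2).card : ℝ) - (SF riemannZeta U1 U2).card) / k ≤
      (μ - 1) * ((NN riemannZeta U1 U2 : ℝ) - (SF riemannZeta U1 U2).card) := by
    have h4 : (((ords U1 U2).card : ℝ) - (SF riemannZeta U1 U2).card) / k ≤
        1 / (2 * k) * ((NN riemannZeta U1 U2 : ℝ) - (SF riemannZeta U1 U2).card) := by
      rw [div_le_iff₀ hk0]
      have e1 : 1 / (2 * (k : ℝ)) * ((NN riemannZeta U1 U2 : ℝ) -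
          (SF riemannZeta U1 U2).card) * k = ((NN riemannZeta U1 U2 : ℝ) -
          (SF riemannZeta U1 U2).card) / 2 := by field_simp
      rw [e1]
      linarith
    exact h4.trans (mul_le_mul_of_nonneg_right (by linarith) (by linarith))
  have h5 : ((farF (ords U1 U2) (2 * Real.pi * r / Real.log T)).card : ℝ) ≤
      (wide U1 U2 (2 * Real.pi * r / Real.log T)).ncard + 1 := by exact_mod_cast hfw
  have h6 : ((wide U1 U2 (2 * Real.pi * r / Real.log T)).ncard : ℝ) ≤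
      (wide T1 T2 (2 * Real.pi * r / Real.log T)).ncard := by exact_mod_cast hwm
  linarith

lemma mu_pos (x : ℝ) (k : ℕ) : 0 < mu x k := by
  unfold mu
  exact lt_of_lt_of_le (by positivity) (le_max_left _ _)

/-- the parameter `δ` -/
lemma delta_exists (x : ℝ) (k : ℕ) (c ε : ℝ) (hε : 0 < ε) :
    ∃ δ : ℝ, 0 < δ ∧ δ ≤ 1 / 10 ∧ δ * (4 + 10 * mu x k + 2 * mu x k * |c - 1|) ≤ ε := by
  have hμ := mu_pos x k
  have h0 : 0 < 4 + 10 * mu x k + 2 * mu x k * |c - 1| := by positivity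
  refine ⟨min (1 / 10) (ε / (4 + 10 * mu x k + 2 * mu x k * |c - 1|)), by positivity,
    min_le_left _ _, ?_⟩
  calc min (1 / 10) (ε / (4 + 10 * mu x k + 2 * mu x k * |c - 1|)) *
      (4 + 10 * mu x k + 2 * mu x k * |c - 1|) ≤
      ε / (4 + 10 * mu x k + 2 * mu x k * |c - 1|) *
        (4 + 10 * mu x k + 2 * mu x k * |c - 1|) :=
        mul_le_mul_of_nonneg_right (min_le_right _ _) h0.le
    _ = ε := by field_simp

/-- large gaps in all short intervals -/
theorem gp_short {h r ε : ℝ} {k : ℕ} (hk : 1 ≤ k) (hh : 0 < h) (hh1 : h ≤ 1) (hr0 : 0 ≤ r)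
    (hr : h * (k * r) ≤ 1 / 2) (hε : 0 < ε) :
    ∃ T0 : ℝ, 10 ≤ T0 ∧ ∀ T : ℝ, T0 ≤ T → ∀ H : ℝ, T ^ h ≤ H → H ≤ T →
      (1 - mu (h * (k * r)) k * (c0 h - 1) - ε) * (NN riemannZeta T (T + H) : ℝ) ≤
        ((wide T (T + H) (2 * Real.pi * r / Real.log T)).ncard : ℝ) := by
  have hpi := Real.pi_pos
  obtain ⟨δ, hδ, hδ1, hδε⟩ := delta_exists (h * (k * r)) k (c0 h) ε hε
  obtain ⟨T1, hT1, h1⟩ := frame_short good_zeta hh hh1 (r := k * r) (by positivity) hr hδ
    (by linarith)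
  have htop : Tendsto (fun T : ℝ => T ^ h) atTop atTop := tendsto_rpow_atTop hh
  obtain ⟨T2, hT2⟩ := (htop.eventually_ge_atTop (2 * Real.pi / δ)).exists_forall_of_atTop
  refine ⟨max T1 T2, hT1.trans (le_max_left _ _), fun T hT H hH hHT => ?_⟩
  obtain ⟨U1, U2, hU1, hU2, hfr, hN⟩ := h1 T ((le_max_left _ _).trans hT) H hH hHT
  have hTT := hT2 T ((le_max_right _ _).trans hT)
  have hT10 : 10 ≤ T := hT1.trans ((le_max_left _ _).trans hT)
  have hL1 : 1 ≤ Real.log T := by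
    rw [Real.le_log_iff_exp_le (by linarith)]
    have := Real.exp_one_lt_d9
    linarith
  have hHb : 2 * Real.pi / δ ≤ H := hTT.trans hH
  have hH0 : 0 < H := lt_of_lt_of_le (by positivity) hHb
  have hone : 1 ≤ δ * (H * Real.log T / (2 * Real.pi)) := by
    rw [div_le_iff₀ hδ] at hHb
    have h3 : H * 1 ≤ H * Real.log T := mul_le_mul_of_nonneg_left hL1 hH0.le
    rw [← mul_div_assoc, le_div_iff₀ (by positivity)]
    nlinarith
  exact gp_frame hk hh hr0 hr hδ hδ1 hδε hT10 hU1 hH0 hone hfr hU1 hU2 hN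

/-- large gaps in almost all very short intervals -/
theorem gp_aa (hB : ∀ τ : ℝ, 0 < τ → τ ≤ 1 → Pool.Agent.TH822.DZ.BZr riemannZeta τ)
    {η h r ε : ℝ} {k : ℕ} (hk : 1 ≤ k) (hη0 : 0 < η) (hη1 : η < 1) (hh : 0 < h)
    (hh1 : 2 * h ≤ 1 + η) (hr0 : 0 ≤ r) (hr : h * (k * r) ≤ 1 / 2) (hε : 0 < ε) :
    AA η (fun T H t =>
      (1 - mu (h * (k * r)) k * (c0 h - 1) - ε) * (NN riemannZeta t (t + H) : ℝ) ≤
        ((wide t (t + H) (2 * Real.pi * r / Real.log T)).ncard : ℝ)) := by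
  have hpi := Real.pi_pos
  obtain ⟨δ, hδ, hδ1, hδε⟩ := delta_exists (h * (k * r)) k (c0 h) ε hε
  have htop : Tendsto (fun T : ℝ => T ^ η) atTop atTop := tendsto_rpow_atTop hη0
  obtain ⟨T2, hT2⟩ := (htop.eventually_ge_atTop (2 * Real.pi / δ)).exists_forall_of_atTop
  refine aa_mono (T1 := max 10 T2) (frame_aa good_zeta hB hη0 hη1 hh hh1 (r := k * r)
    (by positivity) hr hδ (by linarith)) ?_
  intro T hT t ht H hH hfr
  have hTT := hT2 T ((le_max_right _ _).trans hT)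
  have hT10 : 10 ≤ T := (le_max_left _ _).trans hT
  have hL1 : 1 ≤ Real.log T := by
    rw [Real.le_log_iff_exp_le (by linarith)]
    have := Real.exp_one_lt_d9
    linarith
  have hHb : 2 * Real.pi / δ ≤ H := hTT.trans hH
  have hH0 : 0 < H := lt_of_lt_of_le (by positivity) hHb
  have hone : 1 ≤ δ * (H * Real.log T / (2 * Real.pi)) := by
    rw [div_le_iff₀ hδ] at hHb
    have h3 : H * 1 ≤ H * Real.log T := mul_le_mul_of_nonneg_left hL1 hH0.le
    rw [← mul_div_assoc, le_div_iff₀ (by positivity)]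
    nlinarith
  exact gp_frame hk hh hr0 hr hδ hδ1 hδε hT10 ht hH0 hone hfr le_rfl le_rfl (by linarith)

end Pool.Agent.U73.GP
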